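import Mathlib

/-!
# BT3 module CROSS: close centres of gravity of vertex disjoint triples on the moment curve force crossings; bricks

`cross`: let `a ≤ b ≤ c` and `a' ≤ b' ≤ c'` be integers in `[0, B]`, no one of the first triple in the second triple, and let
`t i ∈ {a, b, c}`, `t' i ∈ {a', b', c'}` for `i < m`.  If the sums of `t i`, `t' i` and of `t i ^ 2`, `t' i ^ 2` differ by at most `D` and
`D (2 B + 1) < m`, then `ab` crosses `a'b'` or `bc` crosses `b'c'` or `ac` crosses `a'c'`.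

`brk`: the brick wall; two points at distance less than `L` in bricks of the same colour (three colours) are in the same
brick, and two points of one brick are at distance less than `2 L`.
-/

set_option autoImplicit false

namespace Pool.Agent.BT3

/-- the pairs `ab` and `xy` (with `a ≤ b`, `x ≤ y`) cross -/
def Xg (a b x y : ℤ) : Prop := (a < x ∧ x < b ∧ b < y) ∨ (x < a ∧ a < y ∧ y < b)

theorem sep_quad {m : ℕ} {B D α β : ℤ} (t t' : ℕ → ℤ) (h0 : 0 ≤ α + β) (h1 : α + β ≤ 2 * B)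
    (hD : 0 ≤ D) (ht : ∀ i ∈ Finset.range m, 0 ≤ (t i - α) * (t i - β))
    (ht' : ∀ i ∈ Finset.range m, (t' i - α) * (t' i - β) ≤ -1)
    (hx : |(∑ i ∈ Finset.range m, t i) - ∑ i ∈ Finset.range m, t' i| ≤ D)
    (hy : |(∑ i ∈ Finset.range m, t i ^ 2) - ∑ i ∈ Finset.range m, t' i ^ 2| ≤ D)
    (hm : D * (2 * B + 1) < m) : False := by
  have e1 : ∑ i ∈ Finset.range m, (t i - α) * (t i - β) =
      (∑ i ∈ Finset.range m, t i ^ 2) - (α + β) * (∑ i ∈ Finset.range m, t i) + m * (α * β) := by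
    rw [Finset.mul_sum, ← Finset.sum_sub_distrib]
    have : (m : ℤ) * (α * β) = ∑ i ∈ Finset.range m, α * β := by simp
    rw [this, ← Finset.sum_add_distrib]
    exact Finset.sum_congr rfl fun i _ => by ring
  have e2 : ∑ i ∈ Finset.range m, (t' i - α) * (t' i - β) =
      (∑ i ∈ Finset.range m, t' i ^ 2) - (α + β) * (∑ i ∈ Finset.range m, t' i) + m * (α * β) := by
    rw [Finset.mul_sum, ← Finset.sum_sub_distrib]
    have : (m : ℤ) * (α * β) = ∑ i ∈ Finset.range m, α * β := by simp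
    rw [this, ← Finset.sum_add_distrib]
    exact Finset.sum_congr rfl fun i _ => by ring
  have f1 : 0 ≤ ∑ i ∈ Finset.range m, (t i - α) * (t i - β) := Finset.sum_nonneg ht
  have f2 : ∑ i ∈ Finset.range m, (t' i - α) * (t' i - β) ≤ -(m : ℤ) := by
    have := Finset.sum_le_sum ht'
    simpa using this
  rw [abs_le] at hx hy
  have g1 : (α + β) * ((∑ i ∈ Finset.range m, t' i) - (∑ i ∈ Finset.range m, t i)) ≤
      2 * B * D := by
    have k1 : (∑ i ∈ Finset.range m, t' i) - (∑ i ∈ Finset.range m, t i) ≤ D := by linarith [hx.1]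
    calc (α + β) * ((∑ i ∈ Finset.range m, t' i) - (∑ i ∈ Finset.range m, t i))
        ≤ (α + β) * D := mul_le_mul_of_nonneg_left k1 h0
      _ ≤ 2 * B * D := mul_le_mul_of_nonneg_right h1 hD
  nlinarith [hy.2]

theorem sep_lin {m : ℕ} {B D c : ℤ} (t t' : ℕ → ℤ) (hB : 0 ≤ B) (hD : 0 ≤ D)
    (ht : ∀ i ∈ Finset.range m, t i ≤ c) (ht' : ∀ i ∈ Finset.range m, c + 1 ≤ t' i)
    (hx : |(∑ i ∈ Finset.range m, t i) - ∑ i ∈ Finset.range m, t' i| ≤ D)
    (hm : D * (2 * B + 1) < m) : False := by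
  have f1 := Finset.sum_le_sum ht
  have f2 := Finset.sum_le_sum ht'
  simp only [Finset.sum_const, Finset.card_range, nsmul_eq_mul] at f1 f2
  rw [abs_le] at hx
  nlinarith [hx.1, mul_nonneg hB hD]

theorem cross_aux {m : ℕ} {B D a b c a' b' c' : ℤ} (t t' : ℕ → ℤ) (h0 : 0 ≤ a) (hab : a ≤ b)
    (hbc : b ≤ c) (hcB : c ≤ B) (hab' : a' ≤ b') (hbc' : b' ≤ c')
    (d1 : a ≠ a' ∧ a ≠ b' ∧ a ≠ c') (d2 : b ≠ a' ∧ b ≠ b' ∧ b ≠ c')
    (d3 : c ≠ a' ∧ c ≠ b' ∧ c ≠ c')
    (hD : 0 ≤ D) (ht : ∀ i ∈ Finset.range m, t i = a ∨ t i = b ∨ t i = c)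
    (ht' : ∀ i ∈ Finset.range m, t' i = a' ∨ t' i = b' ∨ t' i = c')
    (hx : |(∑ i ∈ Finset.range m, t i) - ∑ i ∈ Finset.range m, t' i| ≤ D)
    (hy : |(∑ i ∈ Finset.range m, t i ^ 2) - ∑ i ∈ Finset.range m, t' i ^ 2| ≤ D)
    (hm : D * (2 * B + 1) < m) (haa : a < a') :
    Xg a b a' b' ∨ Xg b c b' c' ∨ Xg a c a' c' := by
  by_contra hcon
  unfold Xg at hcon
  by_cases q1 : c < a'
  · refine sep_lin (c := c) t t' (by omega) hD (fun i hi => ?_) (fun i hi => ?_) hx hm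
    · rcases ht i hi with h | h | h <;> omega
    · rcases ht' i hi with h | h | h <;> omega
  · have q2 : a' < c := by omega
    have q3 : c' < c := by omega
    by_cases q4 : b < a'
    · refine sep_quad (α := b) (β := c) t t' (by omega) (by omega) hD (fun i hi => ?_)
        (fun i hi => ?_) hx hy hm
      · rcases ht i hi with h | h | h <;> rw [h] <;> nlinarith
      · have k1 : b + 1 ≤ t' i := by rcases ht' i hi with h | h | h <;> omega
        have k2 : t' i + 1 ≤ c := by rcases ht' i hi with h | h | h <;> omega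
        nlinarith
    · by_cases q5 : c' < b
      · refine sep_quad (α := a) (β := b) t t' (by omega) (by omega) hD (fun i hi => ?_)
          (fun i hi => ?_) hx hy hm
        · rcases ht i hi with h | h | h <;> rw [h] <;> nlinarith
        · have k1 : a + 1 ≤ t' i := by rcases ht' i hi with h | h | h <;> omega
          have k2 : t' i + 1 ≤ b := by rcases ht' i hi with h | h | h <;> omega
          nlinarith
      · omega

theorem cross {m : ℕ} {B D a b c a' b' c' : ℤ} (t t' : ℕ → ℤ) (h0 : 0 ≤ a) (h0' : 0 ≤ a')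
    (hab : a ≤ b) (hbc : b ≤ c) (hcB : c ≤ B) (hab' : a' ≤ b') (hbc' : b' ≤ c') (hcB' : c' ≤ B)
    (d1 : a ≠ a' ∧ a ≠ b' ∧ a ≠ c') (d2 : b ≠ a' ∧ b ≠ b' ∧ b ≠ c')
    (d3 : c ≠ a' ∧ c ≠ b' ∧ c ≠ c')
    (hD : 0 ≤ D) (ht : ∀ i ∈ Finset.range m, t i = a ∨ t i = b ∨ t i = c)
    (ht' : ∀ i ∈ Finset.range m, t' i = a' ∨ t' i = b' ∨ t' i = c')
    (hx : |(∑ i ∈ Finset.range m, t i) - ∑ i ∈ Finset.range m, t' i| ≤ D)
    (hy : |(∑ i ∈ Finset.range m, t i ^ 2) - ∑ i ∈ Finset.range m, t' i ^ 2| ≤ D)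
    (hm : D * (2 * B + 1) < m) :
    Xg a b a' b' ∨ Xg b c b' c' ∨ Xg a c a' c' := by
  rcases lt_or_gt_of_ne d1.1 with h | h
  · exact cross_aux t t' h0 hab hbc hcB hab' hbc' d1 d2 d3 hD ht ht' hx hy hm h
  · rw [abs_sub_comm] at hx hy
    have h1 := cross_aux t' t h0' hab' hbc' hcB' hab hbc ⟨d1.1.symm, d2.1.symm, d3.1.symm⟩
      ⟨d1.2.1.symm, d2.2.1.symm, d3.2.1.symm⟩ ⟨d1.2.2.symm, d2.2.2.symm, d3.2.2.symm⟩ hD ht' ht
      hx hy hm h
    unfold Xg at h1 ⊢
    omega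

/-- the brick of a point of the plane; bricks are `2 L` wide and `L` high -/
def brk (L : ℤ) (P : ℤ × ℤ) : ℤ × ℤ := ((P.1 / L - P.2 / L) / 2, P.2 / L)

/-- the colour of the brick -/
def bcol (L : ℤ) (P : ℤ × ℤ) : Fin 3 :=
  ⟨(((brk L P).1 + 2 * (brk L P).2) % 3).toNat, by omega⟩

theorem div_close {L x y : ℤ} (hL : 0 < L) (h : x < y + L) : x / L ≤ y / L + 1 := by
  have h1 : x / L ≤ (y + L) / L := Int.ediv_le_ediv hL h.le
  have h2 := Int.add_mul_ediv_right y 1 hL.ne'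
  rw [one_mul] at h2
  rwa [h2] at h1

theorem close_div {L x y : ℤ} (hL : 0 < L) (h : x / L ≤ y / L + 1) : x < y + 2 * L := by
  have h1 := Int.mul_ediv_add_emod x L
  have h2 := Int.mul_ediv_add_emod y L
  have h3 := Int.emod_lt_of_pos x hL
  have h4 := Int.emod_nonneg y hL.ne'
  nlinarith

theorem brk_eq {L : ℤ} (hL : 0 < L) {P Q : ℤ × ℤ} (h1 : |P.1 - Q.1| < L) (h2 : |P.2 - Q.2| < L)
    (hc : bcol L P = bcol L Q) : brk L P = brk L Q := by
  rw [abs_lt] at h1 h2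
  have a1 := div_close hL (x := P.1) (y := Q.1) (by linarith [h1.2])
  have a2 := div_close hL (x := Q.1) (y := P.1) (by linarith [h1.1])
  have a3 := div_close hL (x := P.2) (y := Q.2) (by linarith [h2.2])
  have a4 := div_close hL (x := Q.2) (y := P.2) (by linarith [h2.1])
  have hc1 : (((P.1 / L - P.2 / L) / 2 + 2 * (P.2 / L)) % 3).toNat =
      (((Q.1 / L - Q.2 / L) / 2 + 2 * (Q.2 / L)) % 3).toNat := congrArg Fin.val hc
  unfold brk
  generalize P.1 / L = p1 at *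
  generalize P.2 / L = p2 at *
  generalize Q.1 / L = q1 at *
  generalize Q.2 / L = q2 at *
  rw [Prod.mk.injEq]
  omega

theorem brk_close {L : ℤ} (hL : 0 < L) {P Q : ℤ × ℤ} (h : brk L P = brk L Q) :
    |P.1 - Q.1| ≤ 2 * L ∧ |P.2 - Q.2| ≤ 2 * L := by
  unfold brk at h
  rw [Prod.mk.injEq] at h
  obtain ⟨h1, h2⟩ := h
  have a1 := close_div hL (x := P.1) (y := Q.1) (by omega)
  have a2 := close_div hL (x := Q.1) (y := P.1) (by omega)
  have a3 := close_div hL (x := P.2) (y := Q.2) (by omega)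
  have a4 := close_div hL (x := Q.2) (y := P.2) (by omega)
  rw [abs_le, abs_le]
  omega

end Pool.Agent.BT3
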