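import Pool.Agent.BT.Defs

/-!
# BT3: the triangulated three-dimensional grid

`GG n` has the vertices `{0, …, n}³`; two different vertices are adjacent if one of them is at most the other in every coordinate and
every coordinate differs by at most one (the Freudenthal or Kuhn triangulation of the cube grid).

Blueprint: `Hex`, `Cross`, `Low` (the book thickness is unbounded), `Lay` (3-page embedding of the 1-subdivision).
-/

set_option autoImplicit false

namespace Pool.Agent.BT3

/-- the vertices -/
abbrev VT (n : ℕ) : Type := Fin 3 → Fin (n + 1)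

/-- a positive step (possibly trivial) -/
def PS {n : ℕ} (u v : VT n) : Prop := ∀ i, (u i : ℕ) ≤ (v i : ℕ) ∧ (v i : ℕ) ≤ (u i : ℕ) + 1

/-- the graph -/
def GG (n : ℕ) : SimpleGraph (VT n) where
  Adj u v := u ≠ v ∧ (PS u v ∨ PS v u)
  symm := ⟨fun _ _ h => ⟨h.1.symm, h.2.symm⟩⟩
  loopless := ⟨fun _ h => h.1 rfl⟩

end Pool.Agent.BT3
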