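import Pool.Agent.BT3.Defs

/-!
# BT3 module DEG: the triangulated grid has maximum degree at most 14
-/

set_option autoImplicit false

namespace Pool.Agent.BT3

theorem deg {n : ℕ} (v : VT n) : ((GG n).neighborSet v).ncard ≤ 14 := by
  classical
  have h : ((GG n).neighborSet v).ncard ≤
      (((Finset.univ : Finset (Bool × (Fin 3 → Bool))).filter
        (fun q => q.2 ≠ fun _ => false) : Finset _) : Set (Bool × (Fin 3 → Bool))).ncard := by
    apply Set.ncard_le_ncard_of_injOn
      (fun w : VT n => (decide (∀ i, (v i : ℕ) ≤ w i), fun i => decide (w i ≠ v i)))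
    · intro w hw
      have hw1 : v ≠ w := hw.1
      simp only [Finset.coe_filter, Finset.mem_univ, true_and, Set.mem_ofPred_eq]
      intro hc
      apply hw1
      funext i
      have h1 := congrFun hc i
      simp only [decide_eq_false_iff_not, not_not] at h1
      exact h1.symm
    · intro w hw w' hw' hww
      rw [Prod.mk.injEq] at hww
      obtain ⟨hs, hd⟩ := hww
      have hs' : (∀ i, (v i : ℕ) ≤ w i) ↔ (∀ i, (v i : ℕ) ≤ w' i) := by
        simpa using hs
      have hd' : ∀ i, ((w i : ℕ) ≠ v i ↔ (w' i : ℕ) ≠ v i) := by
        intro i
        have h1 := congrFun hd i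
        simp only [decide_eq_decide] at h1
        simpa [Fin.ext_iff] using h1
      have key : ∀ w : VT n, (GG n).Adj v w → ¬ (∀ i, (v i : ℕ) ≤ w i) → PS w v := by
        rintro w ⟨_, h1 | h1⟩ h2
        · exact absurd (fun i => (h1 i).1) h2
        · exact h1
      have key2 : ∀ w : VT n, (GG n).Adj v w → (∀ i, (v i : ℕ) ≤ w i) → PS v w := by
        rintro w ⟨h0, h1 | h1⟩ h2
        · exact h1
        · exfalso
          apply h0
          funext i
          apply Fin.ext
          exact le_antisymm (h2 i) (h1 i).1
      by_cases hv : ∀ i, (v i : ℕ) ≤ w i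
      · have a1 := key2 w hw hv
        have a2 := key2 w' hw' (hs'.1 hv)
        funext i
        apply Fin.ext
        have b1 := a1 i
        have b2 := a2 i
        have b3 := hd' i
        omega
      · have a1 := key w hw hv
        have a2 := key w' hw' (fun hc => hv (hs'.2 hc))
        funext i
        apply Fin.ext
        have b1 := a1 i
        have b2 := a2 i
        have b3 := hd' i
        omega
  rw [Set.ncard_coe_finset] at h
  exact h.trans (by decide)

end Pool.Agent.BT3
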