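import Pool.Agent.Lib.Brouwer

/-!
# BT3 module HEX: a three-dimensional Hex lemma with king moves

For every three-colouring `col` of the grid `{0, …, K}³` some colour `j` contains a path of king moves from the face
`v j = 0` to the face `v j = K`.

PROOF.  Otherwise give every grid point `v` of colour `j` the sign `+` if it is joined in colour `j` to the face `v j = 0`
and the sign `-` if it is not.  Spread the signed unit vectors `± e_j` with hat functions over the cube; the Poincaré–Miranda
theorem gives a zero.  In the support of the hat functions at one point all grid points are king neighbours, so all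
vectors of one colour have the same sign, and the sum cannot vanish.
-/

set_option autoImplicit false

namespace Pool.Agent.BT3

/-- king adjacency on the grid (reflexive) -/
def King {K : ℕ} (u v : Fin 3 → Fin (K + 1)) : Prop :=
  ∀ i, (u i : ℕ) ≤ (v i : ℕ) + 1 ∧ (v i : ℕ) ≤ (u i : ℕ) + 1

/-- one step in colour `j` -/
def Stp {K : ℕ} (col : (Fin 3 → Fin (K + 1)) → Fin 3) (j : Fin 3) (u v : Fin 3 → Fin (K + 1)) :
    Prop :=
  King u v ∧ col u = j ∧ col v = j

/-- joined to the face of its own colour -/
def Co {K : ℕ} (col : (Fin 3 → Fin (K + 1)) → Fin 3) (j : Fin 3) (v : Fin 3 → Fin (K + 1)) :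
    Prop :=
  col v = j ∧ ∃ u : Fin 3 → Fin (K + 1), (u j : ℕ) = 0 ∧ col u = j ∧
    Relation.ReflTransGen (Stp col j) u v

theorem Co_of_king {K : ℕ} {col : (Fin 3 → Fin (K + 1)) → Fin 3} {j : Fin 3}
    {u v : Fin 3 → Fin (K + 1)} (h : Co col j u) (hv : col v = j) (hk : King u v) :
    Co col j v := by
  obtain ⟨h1, w, h2, h3, h4⟩ := h
  exact ⟨hv, w, h2, h3, h4.tail ⟨hk, h1, hv⟩⟩

open Classical in
/-- the sign -/
noncomputable def sg {K : ℕ} (col : (Fin 3 → Fin (K + 1)) → Fin 3) (v : Fin 3 → Fin (K + 1)) : ℝ :=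
  if Co col (col v) v then 1 else -1

/-- the hat function -/
noncomputable def hat {K : ℕ} (v : Fin 3 → Fin (K + 1)) (x : Fin 3 → ℝ) : ℝ :=
  ∏ i, max 0 (1 - |x i - ((v i : ℕ) : ℝ)|)

theorem hat_nonneg {K : ℕ} (v : Fin 3 → Fin (K + 1)) (x : Fin 3 → ℝ) : 0 ≤ hat v x :=
  Finset.prod_nonneg fun _ _ => le_max_left _ _

theorem hat_pos {K : ℕ} {v : Fin 3 → Fin (K + 1)} {x : Fin 3 → ℝ} (h : 0 < hat v x) (i : Fin 3) :
    |x i - ((v i : ℕ) : ℝ)| < 1 := by
  by_contra hc
  have h1 : max 0 (1 - |x i - ((v i : ℕ) : ℝ)|) = 0 := max_eq_left (by linarith)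
  have h2 : hat v x = 0 := Finset.prod_eq_zero (Finset.mem_univ i) h1
  linarith

theorem hat_pos_of {K : ℕ} {v : Fin 3 → Fin (K + 1)} {x : Fin 3 → ℝ}
    (h : ∀ i, |x i - ((v i : ℕ) : ℝ)| < 1) : 0 < hat v x :=
  Finset.prod_pos fun i _ => lt_max_of_lt_right (by have := h i; linarith)

theorem king_of_hat {K : ℕ} {u v : Fin 3 → Fin (K + 1)} {x : Fin 3 → ℝ} (hu : 0 < hat u x)
    (hv : 0 < hat v x) : King u v := by
  intro i
  have h1 := abs_lt.1 (hat_pos hu i)
  have h2 := abs_lt.1 (hat_pos hv i)
  constructor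
  · have h3 : ((u i : ℕ) : ℝ) < ((v i : ℕ) : ℝ) + 2 := by linarith [h1.1, h2.2]
    have h4 : (u i : ℕ) < (v i : ℕ) + 2 := by exact_mod_cast h3
    omega
  · have h3 : ((v i : ℕ) : ℝ) < ((u i : ℕ) : ℝ) + 2 := by linarith [h1.2, h2.1]
    have h4 : (v i : ℕ) < (u i : ℕ) + 2 := by exact_mod_cast h3
    omega

open Classical in
/-- the vector field -/
noncomputable def fld {K : ℕ} (col : (Fin 3 → Fin (K + 1)) → Fin 3) (x : Fin 3 → ℝ) (i : Fin 3) :
    ℝ :=
  ∑ v : Fin 3 → Fin (K + 1), if col v = i then sg col v * hat v x else 0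

theorem fld_cont {K : ℕ} (col : (Fin 3 → Fin (K + 1)) → Fin 3) : Continuous (fld col) := by
  refine continuous_pi fun i => ?_
  unfold fld
  refine continuous_finsetSum _ fun v _ => ?_
  split_ifs
  · unfold hat
    fun_prop
  · exact continuous_const

theorem hex (K : ℕ) (hK : 1 ≤ K) (col : (Fin 3 → Fin (K + 1)) → Fin 3) :
    ∃ (j : Fin 3) (u v : Fin 3 → Fin (K + 1)), (u j : ℕ) = 0 ∧ (v j : ℕ) = K ∧ col u = j ∧
      Relation.ReflTransGen (Stp col j) u v := by
  by_contra hcon
  push Not at hcon
  have hKr : (1 : ℝ) ≤ K := by exact_mod_cast hK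
  obtain ⟨x, hx, hx0⟩ := Pool.Lib.poincare_miranda
    (f := fun x i => - fld col (fun i => (K : ℝ) * (x i + 1) / 2) i)
    (by
      have h1 : Continuous fun x : Fin 3 → ℝ => fun i => (K : ℝ) * (x i + 1) / 2 := by fun_prop
      have h2 := (fld_cont col).comp h1
      refine (continuous_pi fun i => ?_).continuousOn
      exact ((continuous_apply i).comp h2).neg)
    (by
      intro x hx i hi
      simp only [neg_nonpos]
      refine Finset.sum_nonneg fun v _ => ?_
      split_ifs with hv
      · by_cases h0 : 0 < hat v (fun i => (K : ℝ) * (x i + 1) / 2)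
        · have h1 := (abs_lt.1 (hat_pos h0 i)).1
          simp only [hi] at h1
          have h2 : ((v i : ℕ) : ℝ) < 1 := by linarith
          have h3 : (v i : ℕ) = 0 := by
            have : (v i : ℕ) < 1 := by exact_mod_cast h2
            omega
          have h4 : sg col v = 1 := by
            unfold sg
            rw [if_pos]
            rw [hv]
            exact ⟨hv, v, h3, hv, Relation.ReflTransGen.refl⟩
          rw [h4, one_mul]
          exact h0.le
        · have h1 : hat v (fun i => (K : ℝ) * (x i + 1) / 2) = 0 :=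
            le_antisymm (not_lt.1 h0) (hat_nonneg _ _)
          rw [h1, mul_zero]
      · exact le_refl _)
    (by
      intro x hx i hi
      simp only [Left.nonneg_neg_iff]
      refine Finset.sum_nonpos fun v _ => ?_
      split_ifs with hv
      · by_cases h0 : 0 < hat v (fun i => (K : ℝ) * (x i + 1) / 2)
        · have h1 := (abs_lt.1 (hat_pos h0 i)).2
          simp only [hi] at h1
          have h2 : (K : ℝ) < ((v i : ℕ) : ℝ) + 1 := by linarith
          have h3 : (v i : ℕ) = K := by
            have h4 : K < (v i : ℕ) + 1 := by exact_mod_cast h2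
            have h5 := (v i).isLt
            omega
          have h4 : sg col v = -1 := by
            unfold sg
            rw [if_neg]
            rw [hv]
            rintro ⟨_, u, h5, h6, h7⟩
            exact hcon i u v h5 h3 h6 h7
          rw [h4]
          linarith
        · have h1 : hat v (fun i => (K : ℝ) * (x i + 1) / 2) = 0 :=
            le_antisymm (not_lt.1 h0) (hat_nonneg _ _)
          rw [h1, mul_zero]
      · exact le_refl _)
  set X : Fin 3 → ℝ := fun i => (K : ℝ) * (x i + 1) / 2 with hX
  have hX0 : ∀ i, 0 ≤ X i := by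
    intro i
    have h1 : -1 ≤ x i := hx.1 i
    have h2 : 0 ≤ x i + 1 := by linarith
    simp only [hX]
    positivity
  have hXK : ∀ i, X i ≤ K := by
    intro i
    have h1 : x i ≤ 1 := hx.2 i
    simp only [hX]
    nlinarith
  have hfl : ∀ i, ⌊X i⌋₊ < K + 1 := by
    intro i
    have h1 : ⌊X i⌋₊ ≤ K := Nat.floor_le_of_le (hXK i)
    omega
  set w : Fin 3 → Fin (K + 1) := fun i => ⟨⌊X i⌋₊, hfl i⟩ with hw
  have hwpos : 0 < hat w X := by
    apply hat_pos_of
    intro i
    have h1 := Nat.floor_le (hX0 i)
    have h2 := Nat.lt_floor_add_one (X i)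
    simp only [hw]
    rw [abs_lt]
    constructor <;> linarith
  have hz : fld col X (col w) = 0 := by
    have h1 := congrFun hx0 (col w)
    simp only [Pi.zero_apply, neg_eq_zero] at h1
    exact h1
  have hs : ∀ v : Fin 3 → Fin (K + 1), col v = col w → 0 < hat v X → sg col v = sg col w := by
    intro v hv h0
    have k1 := king_of_hat h0 hwpos
    have k2 := king_of_hat hwpos h0
    unfold sg
    by_cases h1 : Co col (col w) w
    · rw [if_pos h1, if_pos]
      rw [hv]
      exact Co_of_king h1 hv k2
    · rw [if_neg h1, if_neg]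
      rw [hv]
      intro h2
      exact h1 (Co_of_king h2 rfl k1)
  have hsw : sg col w * sg col w = 1 := by
    unfold sg
    split_ifs <;> norm_num
  have hsum : sg col w * fld col X (col w) =
      ∑ v : Fin 3 → Fin (K + 1), if col v = col w then hat v X else 0 := by
    classical
    unfold fld
    rw [Finset.mul_sum]
    refine Finset.sum_congr rfl fun v _ => ?_
    split_ifs with hv
    · by_cases h0 : 0 < hat v X
      · rw [hs v hv h0, ← mul_assoc, hsw, one_mul]
      · have h1 : hat v X = 0 := le_antisymm (not_lt.1 h0) (hat_nonneg _ _)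
        rw [h1, mul_zero, mul_zero]
    · rw [mul_zero]
  rw [hz, mul_zero] at hsum
  have hpos : 0 < ∑ v : Fin 3 → Fin (K + 1), if col v = col w then hat v X else 0 := by
    refine Finset.sum_pos' (fun v _ => ?_) ⟨w, Finset.mem_univ _, ?_⟩
    · split_ifs
      · exact hat_nonneg _ _
      · exact le_refl _
    · rw [if_pos rfl]
      exact hwpos
  linarith

end Pool.Agent.BT3
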