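import Pool.Agent.BT3.Defs
import Pool.Agent.BT.Rank

/-!
# BT3 module LAY: the 1-subdivision of `GG n` has a 3-page book embedding

Coordinates `x, y, z`; lexicographic keys with five integer entries.  Vertex: `(0, y, x, z, 0)`.  Every edge is written `(lo, hi)` with
`hi - lo ∈ {0, 1}³`, difference `(dx, dy, dz)`.  Division vertex of an edge with `dx = dy = 0`: `(0, y, x, z, 1)` for `lo = (x, y, z)`, so that
its two arcs span no point.  Division vertex of the other edges: `(1, -Y, -X, -Z, -D)` with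
`Y = y lo`, `X = x hi - 1`, `Z = z lo`, `D = 3 dz + dx - dy`, which takes the values `-1, 0, 1` for `dz = 0` and `2, 3, 4` for `dz = 1`.

With time `(Y, X, Z, D)` the end vertices of these edges are, on page `0`: `(X, Y, Z)`; on page `1`: `(X + 1, Y, Z)` if `D ≤ 3` and
`(X + 1, Y, Z + 1)` if `D = 4`; on page `2`: `(X + 1, Y + 1, Z)` if `D ≤ 1` and `(X + 1, Y + 1, Z + 1)` if `2 ≤ D`.  On every page the
end vertices move to the right with time while the division vertices move to the left, so all arcs of the page are nested.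
-/

set_option autoImplicit false

namespace Pool.Agent.BT3

open Pool.Agent.BT

namespace LayAux

/-- the type of the keys -/
abbrev LL : Type := Lex (ℤ × Lex (ℤ × Lex (ℤ × Lex (ℤ × ℤ))))

/-- a key -/
def kk (a b c d e : ℤ) : LL := toLex (a, toLex (b, toLex (c, toLex (d, e))))

theorem kk_lt {a b c d e a' b' c' d' e' : ℤ} : kk a b c d e < kk a' b' c' d' e' ↔
    a < a' ∨ a = a' ∧ (b < b' ∨ b = b' ∧ (c < c' ∨ c = c' ∧ (d < d' ∨ d = d' ∧ e < e'))) := by
  unfold kk
  simp only [Prod.Lex.toLex_lt_toLex]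

theorem kk_inj {a b c d e a' b' c' d' e' : ℤ} (h : kk a b c d e = kk a' b' c' d' e') :
    a = a' ∧ b = b' ∧ c = c' ∧ d = d' ∧ e = e' := by
  have h1 := toLex.injective h
  rw [Prod.mk.injEq] at h1
  have h2 := toLex.injective h1.2
  rw [Prod.mk.injEq] at h2
  have h3 := toLex.injective h2.2
  rw [Prod.mk.injEq] at h3
  have h4 := toLex.injective h3.2
  rw [Prod.mk.injEq] at h4
  exact ⟨h1.1, h2.1, h3.1, h4.1, h4.2⟩

variable {n : ℕ}

/-- coordinates -/
def cx (v : VT n) : ℤ := ((v 0 : ℕ) : ℤ)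
/-- coordinates -/
def cy (v : VT n) : ℤ := ((v 1 : ℕ) : ℤ)
/-- coordinates -/
def cz (v : VT n) : ℤ := ((v 2 : ℕ) : ℤ)

theorem ext_v {u v : VT n} (h1 : cx u = cx v) (h2 : cy u = cy v) (h3 : cz u = cz v) : u = v := by
  unfold cx at h1
  unfold cy at h2
  unfold cz at h3
  funext l
  apply Fin.ext
  fin_cases l
  · show (u 0 : ℕ) = v 0
    omega
  · show (u 1 : ℕ) = v 1
    omega
  · show (u 2 : ℕ) = v 2
    omega

/-- positive nontrivial step in coordinates -/
def AR (u v : VT n) : Prop :=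
  (cx u ≤ cx v ∧ cx v ≤ cx u + 1) ∧ (cy u ≤ cy v ∧ cy v ≤ cy u + 1) ∧
    (cz u ≤ cz v ∧ cz v ≤ cz u + 1) ∧ ¬ (cx u = cx v ∧ cy u = cy v ∧ cz u = cz v)

theorem AR_of {u v : VT n} (h : u ≠ v) (hp : PS u v) : AR u v := by
  have h0 := hp 0
  have h1 := hp 1
  have h2 := hp 2
  refine ⟨?_, ?_, ?_, fun hc => h (ext_v hc.1 hc.2.1 hc.2.2)⟩
  · unfold cx
    omega
  · unfold cy
    omega
  · unfold cz
    omega

theorem exists_rep (e : ↥(GG n).edgeSet) :
    ∃ q : VT n × VT n, (e : Sym2 (VT n)) = s(q.1, q.2) ∧ AR q.1 q.2 := by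
  obtain ⟨e, he⟩ := e
  induction e with
  | _ u w =>
    rw [SimpleGraph.mem_edgeSet] at he
    rcases he with ⟨h1, h2 | h2⟩
    · exact ⟨(u, w), rfl, AR_of h1 h2⟩
    · exact ⟨(w, u), Sym2.eq_swap, AR_of h1.symm h2⟩

open Classical in
/-- key of the division vertex of the edge `(lo, hi)` -/
noncomputable def ekey (u w : VT n) : LL :=
  if cx u = cx w ∧ cy u = cy w then kk 0 (cy u) (cx u) (cz u) 1
  else kk 1 (-(cy u)) (-(cx w - 1)) (-(cz u)) (-(3 * (cz w - cz u) + (cx w - cx u) - (cy w - cy u)))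

/-- key of a vertex -/
def vkey (v : VT n) : LL := kk 0 (cy v) (cx v) (cz v) 0

open Classical in
/-- page of the arc from `v` to the division vertex of `(u, w)` -/
noncomputable def pg (v u w : VT n) : Fin 3 :=
  if cx v = cx w - 1 then 0 else if cy v = cy u then 1 else 2

/-- the shape of an arc -/
def Arc (v : VT n) (P : Fin 3) (K : LL) : Prop :=
  (∃ X Y Z : ℤ, K = kk 0 Y X Z 1 ∧ cx v = X ∧ cy v = Y ∧ (cz v = Z ∨ cz v = Z + 1)) ∨
  (∃ X Y Z D : ℤ, K = kk 1 (-Y) (-X) (-Z) (-D) ∧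
    ((P = 0 ∧ cx v = X ∧ cy v = Y ∧ cz v = Z) ∨
      (P = 1 ∧ cx v = X + 1 ∧ cy v = Y ∧ ((D ≤ 3 ∧ cz v = Z) ∨ (D = 4 ∧ cz v = Z + 1))) ∨
      (P = 2 ∧ cx v = X + 1 ∧ cy v = Y + 1 ∧
        ((D ≤ 1 ∧ cz v = Z) ∨ (2 ≤ D ∧ cz v = Z + 1)))))

theorem ends {u w v : VT n} (h : AR u w) (hv : v = u ∨ v = w) : Arc v (pg v u w) (ekey u w) := by
  have hc : (cx v = cx u ∧ cy v = cy u ∧ cz v = cz u) ∨
      (cx v = cx w ∧ cy v = cy w ∧ cz v = cz w) := by
    rcases hv with rfl | rfl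
    · exact Or.inl ⟨rfl, rfl, rfl⟩
    · exact Or.inr ⟨rfl, rfl, rfl⟩
  unfold AR at h
  by_cases h0 : cx u = cx w ∧ cy u = cy w
  · left
    refine ⟨cx u, cy u, cz u, ?_, ?_, ?_, ?_⟩
    · unfold ekey
      rw [if_pos h0]
    · omega
    · omega
    · omega
  · right
    refine ⟨cx w - 1, cy u, cz u, 3 * (cz w - cz u) + (cx w - cx u) - (cy w - cy u), ?_, ?_⟩
    · unfold ekey
      rw [if_neg h0]
    · unfold pg
      by_cases h1 : cx v = cx w - 1
      · rw [if_pos h1]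
        exact Or.inl ⟨rfl, by omega, by omega, by omega⟩
      · rw [if_neg h1]
        by_cases h2 : cy v = cy u
        · rw [if_pos h2]
          exact Or.inr (Or.inl ⟨rfl, by omega, by omega, by omega⟩)
        · rw [if_neg h2]
          exact Or.inr (Or.inr ⟨rfl, by omega, by omega, by omega⟩)

theorem vkey_inj {u v : VT n} (h : vkey u = vkey v) : u = v := by
  obtain ⟨_, h1, h2, h3, _⟩ := kk_inj h
  exact ext_v h2 h1 h3

theorem vkey_ne_ekey {u w v : VT n} : vkey v ≠ ekey u w := by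
  intro h1
  unfold vkey ekey at h1
  split_ifs at h1
  · obtain ⟨_, _, _, _, h5⟩ := kk_inj h1
    omega
  · obtain ⟨h2, _⟩ := kk_inj h1
    omega

theorem ekey_inj {u w u' w' : VT n} (h : AR u w) (h' : AR u' w') (hk : ekey u w = ekey u' w') :
    u = u' ∧ w = w' := by
  unfold AR at h h'
  unfold ekey at hk
  split_ifs at hk with a b b
  · obtain ⟨_, h2, h3, h4, _⟩ := kk_inj hk
    exact ⟨ext_v (by omega) (by omega) (by omega), ext_v (by omega) (by omega) (by omega)⟩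
  · obtain ⟨h2, _⟩ := kk_inj hk
    omega
  · obtain ⟨h2, _⟩ := kk_inj hk
    omega
  · obtain ⟨_, h2, h3, h4, h5⟩ := kk_inj hk
    exact ⟨ext_v (by omega) (by omega) (by omega), ext_v (by omega) (by omega) (by omega)⟩

theorem sub1_cases {s t : VT n ⊕ ↥(GG n).edgeSet} (h : (Sub1 (GG n)).Adj s t) :
    (∃ (v : VT n) (e : ↥(GG n).edgeSet), s = Sum.inl v ∧ t = Sum.inr e ∧
      v ∈ (e : Sym2 (VT n))) ∨
    (∃ (v : VT n) (e : ↥(GG n).edgeSet), s = Sum.inr e ∧ t = Sum.inl v ∧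
      v ∈ (e : Sym2 (VT n))) := by
  unfold Sub1 at h
  rw [SimpleGraph.fromRel_adj] at h
  rcases h.2 with ⟨v, e, h1, h2, h3⟩ | ⟨v, e, h1, h2, h3⟩
  · exact Or.inl ⟨v, e, h1, h2, h3⟩
  · exact Or.inr ⟨v, e, h2, h1, h3⟩

theorem cross_vv {v v' : VT n} {P P' : Fin 3} {K K' : LL} (H : Arc v P K) (H' : Arc v' P' K')
    (hc : P = P') (h1 : vkey v < vkey v') (h2 : vkey v' < K) (h3 : K < K') : False := by
  rcases H with ⟨X, Y, Z, rfl, a1, a2, a3⟩ | ⟨X, Y, Z, D, rfl, H⟩
  · simp only [vkey, kk_lt] at h1 h2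
    omega
  · rcases H' with ⟨X', Y', Z', rfl, b1, b2, b3⟩ | ⟨X', Y', Z', D', rfl, H'⟩
    · simp only [kk_lt] at h3
      omega
    · simp only [vkey, kk_lt] at h1 h2 h3
      rcases H with ⟨p1, q1, q2, q3⟩ | ⟨p1, q1, q2, q3⟩ | ⟨p1, q1, q2, q3⟩ <;>
        rcases H' with ⟨p2, r1, r2, r3⟩ | ⟨p2, r1, r2, r3⟩ | ⟨p2, r1, r2, r3⟩ <;>
        first
          | (exfalso; rw [p1, p2] at hc; exact absurd hc (by decide))
          | omega

theorem cross_ve {v v' : VT n} {P P' : Fin 3} {K K' : LL} (H : Arc v P K) (H' : Arc v' P' K')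
    (h1 : vkey v < K') (h2 : K' < K) (h3 : K < vkey v') : False := by
  rcases H with ⟨X, Y, Z, rfl, a1, a2, a3⟩ | ⟨X, Y, Z, D, rfl, H⟩
  · rcases H' with ⟨X', Y', Z', rfl, b1, b2, b3⟩ | ⟨X', Y', Z', D', rfl, H'⟩
    · simp only [vkey, kk_lt] at h1 h2 h3
      omega
    · simp only [kk_lt] at h2
      omega
  · simp only [vkey, kk_lt] at h3
    omega

theorem cross_ev {v v' : VT n} {P P' : Fin 3} {K K' : LL} (H : Arc v P K) (H' : Arc v' P' K')
    (h1 : K < vkey v') (h2 : vkey v' < vkey v) (h3 : vkey v < K') : False := by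
  rcases H with ⟨X, Y, Z, rfl, a1, a2, a3⟩ | ⟨X, Y, Z, D, rfl, H⟩
  · simp only [vkey, kk_lt] at h1 h2
    omega
  · simp only [vkey, kk_lt] at h1
    omega

theorem cross_ee {v v' : VT n} {P P' : Fin 3} {K K' : LL} (H : Arc v P K) (H' : Arc v' P' K')
    (h1 : K < K') (h2 : K' < vkey v) (h3 : vkey v < vkey v') : False := by
  rcases H with ⟨X, Y, Z, rfl, a1, a2, a3⟩ | ⟨X, Y, Z, D, rfl, H⟩
  · rcases H' with ⟨X', Y', Z', rfl, b1, b2, b3⟩ | ⟨X', Y', Z', D', rfl, H'⟩
    · simp only [vkey, kk_lt] at h1 h2 h3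
      omega
    · simp only [vkey, kk_lt] at h2
      omega
  · rcases H' with ⟨X', Y', Z', rfl, b1, b2, b3⟩ | ⟨X', Y', Z', D', rfl, H'⟩
    · simp only [kk_lt] at h1
      omega
    · simp only [vkey, kk_lt] at h2
      omega

end LayAux

open LayAux in
theorem lay (n : ℕ) : Pages (Sub1 (GG n)) 3 := by
  classical
  choose q hq har using fun e : ↥(GG n).edgeSet => exists_rep e
  let key : VT n ⊕ ↥(GG n).edgeSet → LL :=
    Sum.elim vkey (fun e => ekey (q e).1 (q e).2)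
  have hkey : Function.Injective key := by
    rintro (u | e) (v | e') h
    · exact congrArg Sum.inl (vkey_inj h)
    · exact absurd h vkey_ne_ekey
    · exact absurd h.symm vkey_ne_ekey
    · have h1 := ekey_inj (har e) (har e') h
      refine congrArg Sum.inr (Subtype.ext ?_)
      rw [hq e, hq e', h1.1, h1.2]
  obtain ⟨p, hp, hlt⟩ := rank key hkey
  let c : VT n ⊕ ↥(GG n).edgeSet → VT n ⊕ ↥(GG n).edgeSet → Fin 3 := fun s t =>
    match s, t with
    | Sum.inl v, Sum.inr e => pg v (q e).1 (q e).2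
    | Sum.inr e, Sum.inl v => pg v (q e).1 (q e).2
    | _, _ => 0
  have hmem : ∀ (v : VT n) (e : ↥(GG n).edgeSet), v ∈ (e : Sym2 (VT n)) →
      v = (q e).1 ∨ v = (q e).2 := by
    intro v e h
    rw [hq e] at h
    exact Sym2.mem_iff.1 h
  refine ⟨p, hp, c, ?_, ?_⟩
  · rintro (u | e) (v | e') <;> rfl
  · intro A B X Y hAB hXY h1 h2 h3
    rw [hlt] at h1 h2 h3
    rcases sub1_cases hAB with ⟨v, e, rfl, rfl, hv⟩ | ⟨v, e, rfl, rfl, hv⟩ <;>
      rcases sub1_cases hXY with ⟨v', e', rfl, rfl, hv'⟩ | ⟨v', e', rfl, rfl, hv'⟩ <;>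
      have H := ends (har e) (hmem v e hv) <;>
      have H' := ends (har e') (hmem v' e' hv') <;>
      intro hc
    · change pg v (q e).1 (q e).2 = pg v' (q e').1 (q e').2 at hc
      change vkey v < vkey v' at h1
      change vkey v' < ekey (q e).1 (q e).2 at h2
      change ekey (q e).1 (q e).2 < ekey (q e').1 (q e').2 at h3
      exact cross_vv H H' hc h1 h2 h3
    · change vkey v < ekey (q e').1 (q e').2 at h1
      change ekey (q e').1 (q e').2 < ekey (q e).1 (q e).2 at h2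
      change ekey (q e).1 (q e).2 < vkey v' at h3
      exact cross_ve H H' h1 h2 h3
    · change ekey (q e).1 (q e).2 < vkey v' at h1
      change vkey v' < vkey v at h2
      change vkey v < ekey (q e').1 (q e').2 at h3
      exact cross_ev H H' h1 h2 h3
    · change ekey (q e).1 (q e).2 < ekey (q e').1 (q e').2 at h1
      change ekey (q e').1 (q e').2 < vkey v at h2
      change vkey v < vkey v' at h3
      exact cross_ee H H' h1 h2 h3

end Pool.Agent.BT3
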