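import Pool.Agent.BT3.Defs
import Pool.Agent.BT3.Hex
import Pool.Agent.BT3.Cross

/-!
# BT3 module LOW: the triangulated grid `GG (s ^ 3 + 1)` has no `s`-page book embedding

PROOF.  Put the vertex `v` at the point `(t, t ^ 2)`, `t = p v`, of the moment curve.  For `X` in the fine grid
`{0, …, n m}³` let `S X` be the sum of the points of the vertices `pt X i = ⌊(X + i) / m⌋`, `i < m`, which form a clique.  For king neighbours
`X, X'` the sums differ by little (at most three vertices change).  Colour `X` by the colour of the brick of `S X`; by `hex` some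
colour `j` has a path crossing the fine grid in the direction `j`; all its sums lie in one brick.  For every `k ≤ n` the path contains a point with `j`-th coordinate `k m`,
whose clique has at most three vertices, all with `j`-th coordinate `k`.  By `cross` corresponding edges of the cliques of `k ≠ k'` cross, so the
triples of colours of these cliques are different, and `n + 1 ≤ s ^ 3`.
-/

set_option autoImplicit false

namespace Pool.Agent.BT3

open Pool.Agent.BT

variable {n m : ℕ}

/-- the vertex `⌊(X + i) / m⌋` -/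
def pt (X : Fin 3 → Fin (n * m + 1)) (i : ℕ) : VT n :=
  fun l => ⟨min n (((X l : ℕ) + i) / m), by omega⟩

theorem pt_val (X : Fin 3 → Fin (n * m + 1)) {i : ℕ} (hi : i < m) (l : Fin 3) :
    ((pt X i l : Fin (n + 1)) : ℕ) = ((X l : ℕ) + i) / m := by
  have h1 : ((X l : ℕ) + i) / m ≤ n := by
    have h2 := (X l).isLt
    have h3 : ((X l : ℕ) + i) / m < n + 1 := by
      rw [Nat.div_lt_iff_lt_mul (by omega)]
      nlinarith
    omega
  show min n (((X l : ℕ) + i) / m) = _
  omega

theorem pt_PS (X : Fin 3 → Fin (n * m + 1)) {i i' : ℕ} (hi' : i' < m) (h : i ≤ i') :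
    PS (pt X i) (pt X i') := by
  intro l
  rw [pt_val X (by omega) l, pt_val X hi' l]
  constructor
  · exact Nat.div_le_div_right (by omega)
  · have h1 : ((X l : ℕ) + i') / m ≤ ((X l : ℕ) + i + m) / m := Nat.div_le_div_right (by omega)
    rwa [Nat.add_div_right _ (by omega : 0 < m)] at h1

theorem pt_adj (X : Fin 3 → Fin (n * m + 1)) {i i' : ℕ} (hi : i < m) (hi' : i' < m)
    (h : pt X i ≠ pt X i') : (GG n).Adj (pt X i) (pt X i') := by
  refine ⟨h, ?_⟩
  rcases le_total i i' with h1 | h1
  · exact Or.inl (pt_PS X hi' h1)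
  · exact Or.inr (pt_PS X hi h1)

/-- three vertices in increasing order -/
theorem triple {V : Type} [DecidableEq V] (p : V → ℕ) (T : Finset V) (hT : T.Nonempty)
    (hc : T.card ≤ 3) :
    ∃ u v w, u ∈ T ∧ v ∈ T ∧ w ∈ T ∧ p u ≤ p v ∧ p v ≤ p w ∧ ∀ x ∈ T, x = u ∨ x = v ∨ x = w := by
  have h1 : 1 ≤ T.card := Finset.card_pos.2 hT
  have h2 : T.card = 1 ∨ T.card = 2 ∨ T.card = 3 := by omega
  rcases h2 with h2 | h2 | h2
  · obtain ⟨a, rfl⟩ := Finset.card_eq_one.1 h2
    exact ⟨a, a, a, by simp, by simp, by simp, le_refl _, le_refl _, by simp⟩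
  · obtain ⟨a, b, _, rfl⟩ := Finset.card_eq_two.1 h2
    rcases le_total (p a) (p b) with h | h
    · exact ⟨a, a, b, by simp, by simp, by simp, le_refl _, h, by simp⟩
    · exact ⟨b, b, a, by simp, by simp, by simp, le_refl _, h, by simp only [Finset.mem_insert, Finset.mem_singleton]; tauto⟩
  · obtain ⟨a, b, c, _, _, _, rfl⟩ := Finset.card_eq_three.1 h2
    rcases le_total (p a) (p b) with h | h <;> rcases le_total (p b) (p c) with h' | h' <;>
      rcases le_total (p a) (p c) with h'' | h''
    · exact ⟨a, b, c, by simp, by simp, by simp, by omega, by omega, by simp only [Finset.mem_insert, Finset.mem_singleton]; tauto⟩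
    · exact ⟨a, b, c, by simp, by simp, by simp, by omega, by omega, by simp only [Finset.mem_insert, Finset.mem_singleton]; tauto⟩
    · exact ⟨a, c, b, by simp, by simp, by simp, by omega, by omega, by simp only [Finset.mem_insert, Finset.mem_singleton]; tauto⟩
    · exact ⟨c, a, b, by simp, by simp, by simp, by omega, by omega, by simp only [Finset.mem_insert, Finset.mem_singleton]; tauto⟩
    · exact ⟨b, a, c, by simp, by simp, by simp, by omega, by omega, by simp only [Finset.mem_insert, Finset.mem_singleton]; tauto⟩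
    · exact ⟨b, c, a, by simp, by simp, by simp, by omega, by omega, by simp only [Finset.mem_insert, Finset.mem_singleton]; tauto⟩
    · exact ⟨c, b, a, by simp, by simp, by simp, by omega, by omega, by simp only [Finset.mem_insert, Finset.mem_singleton]; tauto⟩
    · exact ⟨c, b, a, by simp, by simp, by simp, by omega, by omega, by simp only [Finset.mem_insert, Finset.mem_singleton]; tauto⟩

/-- the clique of a point in the plane `x_j = k` -/
theorem clique (p : VT n → ℕ) (X : Fin 3 → Fin (n * m + 1)) (hm : 1 ≤ m) (j : Fin 3) (k : ℕ)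
    (hX : (X j : ℕ) = k * m) :
    ∃ u v w : VT n, (u j : ℕ) = k ∧ (v j : ℕ) = k ∧ (w j : ℕ) = k ∧ p u ≤ p v ∧ p v ≤ p w ∧
      (u ≠ v → (GG n).Adj u v) ∧ (v ≠ w → (GG n).Adj v w) ∧ (u ≠ w → (GG n).Adj u w) ∧
      ∀ i ∈ Finset.range m, pt X i = u ∨ pt X i = v ∨ pt X i = w := by
  classical
  set T : Finset (VT n) := (Finset.range m).image (pt X) with hT
  have hmem : ∀ x ∈ T, ∃ i, i < m ∧ pt X i = x := by
    intro x hx
    rw [hT, Finset.mem_image] at hx
    obtain ⟨i, h1, h2⟩ := hx
    exact ⟨i, Finset.mem_range.1 h1, h2⟩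
  have hcoord : ∀ i, i < m → ((pt X i j : Fin (n + 1)) : ℕ) = k := by
    intro i hi
    rw [pt_val X hi j, hX, Nat.add_comm, Nat.add_mul_div_right _ _ (by omega),
      Nat.div_eq_of_lt hi]
    omega
  have hcard : T.card ≤ 3 := by
    have hinj : Set.InjOn (fun v : VT n => (v 0 : ℕ) + (v 1 : ℕ) + (v 2 : ℕ)) T := by
      intro x hx y hy hxy
      obtain ⟨i, hi, rfl⟩ := hmem x hx
      obtain ⟨i', hi', rfl⟩ := hmem y hy
      simp only at hxy
      rcases le_total i i' with h | h
      · have h0 := pt_PS X hi' h 0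
        have h1 := pt_PS X hi' h 1
        have h2 := pt_PS X hi' h 2
        funext l
        apply Fin.ext
        fin_cases l
        · show ((pt X i 0 : Fin (n + 1)) : ℕ) = (pt X i' 0 : Fin (n + 1))
          omega
        · show ((pt X i 1 : Fin (n + 1)) : ℕ) = (pt X i' 1 : Fin (n + 1))
          omega
        · show ((pt X i 2 : Fin (n + 1)) : ℕ) = (pt X i' 2 : Fin (n + 1))
          omega
      · have h0 := pt_PS X hi h 0
        have h1 := pt_PS X hi h 1
        have h2 := pt_PS X hi h 2
        funext l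
        apply Fin.ext
        fin_cases l
        · show ((pt X i 0 : Fin (n + 1)) : ℕ) = (pt X i' 0 : Fin (n + 1))
          omega
        · show ((pt X i 1 : Fin (n + 1)) : ℕ) = (pt X i' 1 : Fin (n + 1))
          omega
        · show ((pt X i 2 : Fin (n + 1)) : ℕ) = (pt X i' 2 : Fin (n + 1))
          omega
    rw [← Finset.card_image_of_injOn hinj]
    set h0 : ℕ := ((pt X 0 0 : Fin (n + 1)) : ℕ) + (pt X 0 1 : Fin (n + 1)) + (pt X 0 2 : Fin (n + 1))
      with hh0
    have hsub : T.image (fun v : VT n => (v 0 : ℕ) + (v 1 : ℕ) + (v 2 : ℕ)) ⊆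
        Finset.Icc h0 (h0 + 2) := by
      intro z hz
      rw [Finset.mem_image] at hz
      obtain ⟨x, hx, rfl⟩ := hz
      obtain ⟨i, hi, rfl⟩ := hmem x hx
      have g0 := pt_PS X hi (Nat.zero_le i) 0
      have g1 := pt_PS X hi (Nat.zero_le i) 1
      have g2 := pt_PS X hi (Nat.zero_le i) 2
      have c0 := hcoord 0 (by omega)
      have ci := hcoord i hi
      rw [Finset.mem_Icc]
      fin_cases j
      · change ((pt X 0 0 : Fin (n + 1)) : ℕ) = k at c0
        change ((pt X i 0 : Fin (n + 1)) : ℕ) = k at ci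
        omega
      · change ((pt X 0 1 : Fin (n + 1)) : ℕ) = k at c0
        change ((pt X i 1 : Fin (n + 1)) : ℕ) = k at ci
        omega
      · change ((pt X 0 2 : Fin (n + 1)) : ℕ) = k at c0
        change ((pt X i 2 : Fin (n + 1)) : ℕ) = k at ci
        omega
    have := Finset.card_le_card hsub
    rw [Nat.card_Icc] at this
    omega
  have hne : T.Nonempty := ⟨pt X 0, by
    rw [hT, Finset.mem_image]
    exact ⟨0, Finset.mem_range.2 (by omega), rfl⟩⟩
  obtain ⟨u, v, w, hu, hv, hw, h1, h2, h3⟩ := triple p T hne hcard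
  obtain ⟨iu, hiu, rfl⟩ := hmem u hu
  obtain ⟨iv, hiv, rfl⟩ := hmem v hv
  obtain ⟨iw, hiw, rfl⟩ := hmem w hw
  refine ⟨_, _, _, hcoord iu hiu, hcoord iv hiv, hcoord iw hiw, h1, h2,
    pt_adj X hiu hiv, pt_adj X hiv hiw, pt_adj X hiu hiw, fun i hi => ?_⟩
  exact h3 _ (by
    rw [hT, Finset.mem_image]
    exact ⟨i, hi, rfl⟩)

theorem div_change {x x' i i' : ℕ} (hi : i < m) (hi' : i' < m) (h1 : x ≤ x' + 1)
    (h2 : x' ≤ x + 1) (h3 : (x + i) / m ≠ (x' + i) / m) (h4 : (x + i') / m ≠ (x' + i') / m) :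
    i = i' := by
  have key : ∀ y : ℕ, ∀ i, (y + i) / m ≠ (y + 1 + i) / m → m ∣ y + i + 1 := by
    intro y i h
    by_contra hc
    apply h
    have h5 : y + 1 + i = (y + i) + 1 := by omega
    rw [h5, Nat.succ_div, if_neg hc, Nat.add_zero]
  have fin : ∀ y : ℕ, m ∣ y + i + 1 → m ∣ y + i' + 1 → i = i' := by
    intro y a b
    rcases le_total i i' with h | h
    · have h5 : m ∣ (y + i' + 1) - (y + i + 1) := Nat.dvd_sub b a
      have h6 : (y + i' + 1) - (y + i + 1) = 0 := Nat.eq_zero_of_dvd_of_lt h5 (by omega)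
      omega
    · have h5 : m ∣ (y + i + 1) - (y + i' + 1) := Nat.dvd_sub a b
      have h6 : (y + i + 1) - (y + i' + 1) = 0 := Nat.eq_zero_of_dvd_of_lt h5 (by omega)
      omega
  have h7 : x = x' ∨ x' = x + 1 ∨ x = x' + 1 := by omega
  rcases h7 with h | h | h
  · exact absurd (by rw [h]) h3
  · subst h
    exact fin x (key x i h3) (key x i' h4)
  · subst h
    exact fin x' (key x' i h3.symm) (key x' i' h4.symm)

theorem bad_card {X X' : Fin 3 → Fin (n * m + 1)} (hk : King X X') :
    ((Finset.range m).filter fun i => pt X i ≠ pt X' i).card ≤ 3 := by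
  classical
  have hsub : ((Finset.range m).filter fun i => pt X i ≠ pt X' i) ⊆
      (Finset.univ : Finset (Fin 3)).biUnion fun l =>
        (Finset.range m).filter fun i => ((X l : ℕ) + i) / m ≠ ((X' l : ℕ) + i) / m := by
    intro i hi
    rw [Finset.mem_filter, Finset.mem_range] at hi
    obtain ⟨l, hl⟩ := Function.ne_iff.1 hi.2
    rw [Finset.mem_biUnion]
    refine ⟨l, Finset.mem_univ _, ?_⟩
    rw [Finset.mem_filter, Finset.mem_range]
    refine ⟨hi.1, fun h => hl (Fin.ext ?_)⟩
    rw [pt_val X hi.1 l, pt_val X' hi.1 l, h]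
  have h1 := Finset.card_biUnion_le_card_mul (Finset.univ : Finset (Fin 3))
    (fun l => (Finset.range m).filter fun i => ((X l : ℕ) + i) / m ≠ ((X' l : ℕ) + i) / m) 1
    (fun l _ => by
      rw [Finset.card_le_one]
      intro i hi i' hi'
      rw [Finset.mem_filter, Finset.mem_range] at hi hi'
      exact div_change hi.1 hi'.1 (hk l).1 (hk l).2 hi.2 hi'.2)
  have h2 := Finset.card_le_card hsub
  have h3 : (Finset.univ : Finset (Fin 3)).card = 3 := rfl
  omega

/-- the sums change by at most `3 E` -/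
theorem sum_close {X X' : Fin 3 → Fin (n * m + 1)} (hk : King X X') (f : VT n → ℤ) {E : ℤ}
    (h0 : ∀ v, 0 ≤ f v) (h1 : ∀ v, f v ≤ E) :
    |(∑ i ∈ Finset.range m, f (pt X i)) - ∑ i ∈ Finset.range m, f (pt X' i)| ≤ 3 * E := by
  classical
  rw [← Finset.sum_sub_distrib]
  have e1 : ∑ i ∈ Finset.range m, (f (pt X i) - f (pt X' i)) =
      ∑ i ∈ (Finset.range m).filter (fun i => pt X i ≠ pt X' i), (f (pt X i) - f (pt X' i)) := by
    rw [Finset.sum_filter]
    refine Finset.sum_congr rfl fun i _ => ?_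
    split_ifs with h
    · rfl
    · rw [not_not.1 h, sub_self]
  rw [e1]
  have hE : 0 ≤ E := (h0 (pt X 0)).trans (h1 _)
  calc |∑ i ∈ (Finset.range m).filter (fun i => pt X i ≠ pt X' i), (f (pt X i) - f (pt X' i))|
      ≤ ∑ i ∈ (Finset.range m).filter (fun i => pt X i ≠ pt X' i), |f (pt X i) - f (pt X' i)| :=
        Finset.abs_sum_le_sum_abs _ _
    _ ≤ ∑ i ∈ (Finset.range m).filter (fun i => pt X i ≠ pt X' i), E := by
        refine Finset.sum_le_sum fun i _ => ?_
        rw [abs_le]
        have a1 := h0 (pt X i)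
        have a2 := h0 (pt X' i)
        have a3 := h1 (pt X i)
        have a4 := h1 (pt X' i)
        constructor <;> linarith
    _ = ((Finset.range m).filter fun i => pt X i ≠ pt X' i).card * E := by
        rw [Finset.sum_const, nsmul_eq_mul]
    _ ≤ 3 * E := by
        refine mul_le_mul_of_nonneg_right ?_ hE
        exact_mod_cast bad_card hk

/-- discrete intermediate value theorem along a path, with an invariant -/
theorem path_ivt {V W : Type} (R : V → V → Prop) (f : V → ℕ) (g : V → W)
    (hR : ∀ u v, R u v → f v ≤ f u + 1) (hg : ∀ u v, R u v → g u = g v) {a b : V}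
    (h : Relation.ReflTransGen R a b) :
    ∀ y, f a ≤ y → y ≤ f b → ∃ c, g c = g a ∧ f c = y := by
  have hinv : ∀ b, Relation.ReflTransGen R a b → g b = g a := by
    intro b h
    induction h with
    | refl => rfl
    | tail _ hbc ih => exact (hg _ _ hbc).symm.trans ih
  induction h with
  | refl =>
    intro y h1 h2
    exact ⟨a, rfl, le_antisymm h1 h2⟩
  | tail hab hbc ih =>
    rename_i b c
    intro y h1 h2
    by_cases hj : y ≤ f b
    · exact ih y h1 hj
    · refine ⟨c, hinv c (hab.tail hbc), ?_⟩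
      have := hR _ _ hbc
      omega

theorem low_gen (n s : ℕ) (hn : 1 ≤ n) (hs : s ^ 3 < n + 1) : ¬ Pages (GG n) s := by
  classical
  rintro ⟨p, hp, c, hsym, hcr⟩
  obtain ⟨B, hB0, hB⟩ : ∃ B : ℤ, 0 ≤ B ∧ ∀ v : VT n, (p v : ℤ) ≤ B := by
    refine ⟨∑ v : VT n, (p v : ℤ), Finset.sum_nonneg fun v _ => by positivity, fun v => ?_⟩
    exact Finset.single_le_sum (f := fun v : VT n => (p v : ℤ)) (fun v _ => by positivity)
      (Finset.mem_univ v)
  set E : ℤ := B ^ 2 + B with hE
  have hE0 : 0 ≤ E := by positivity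
  set L : ℤ := 3 * E + 1 with hL
  have hL0 : 0 < L := by linarith
  set m : ℕ := (2 * L * (2 * B + 1) + 1).toNat with hm
  have hmZ : (m : ℤ) = 2 * L * (2 * B + 1) + 1 := by
    rw [hm]
    apply Int.toNat_of_nonneg
    positivity
  have hm1 : 1 ≤ m := by
    have : (1 : ℤ) ≤ m := by
      rw [hmZ]
      have : 0 ≤ 2 * L * (2 * B + 1) := by positivity
      linarith
    exact_mod_cast this
  let S : (Fin 3 → Fin (n * m + 1)) → ℤ × ℤ := fun X =>
    (∑ i ∈ Finset.range m, (p (pt X i) : ℤ), ∑ i ∈ Finset.range m, (p (pt X i) : ℤ) ^ 2)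
  have hS : ∀ X X', King X X' → |(S X).1 - (S X').1| < L ∧ |(S X).2 - (S X').2| < L := by
    intro X X' hk
    constructor
    · have := sum_close hk (fun v => (p v : ℤ)) (E := E) (fun v => by positivity)
        (fun v => by
          have h1 := hB v
          have h2 : 0 ≤ B ^ 2 := by positivity
          linarith)
      exact lt_of_le_of_lt this (by linarith)
    · have := sum_close hk (fun v => (p v : ℤ) ^ 2) (E := E) (fun v => by positivity)
        (fun v => by
          have h1 := hB v
          have h2 : (p v : ℤ) ^ 2 ≤ B ^ 2 := pow_le_pow_left₀ (by positivity) h1 2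
          linarith)
      exact lt_of_le_of_lt this (by linarith)
  obtain ⟨j, u0, v0, hu0, hv0, _, hpath⟩ := hex (n * m) (Nat.mul_pos (by omega) hm1)
    (fun X => bcol L (S X))
  have hX : ∀ k : Fin (n + 1), ∃ X : Fin 3 → Fin (n * m + 1), brk L (S X) = brk L (S u0) ∧
      (X j : ℕ) = (k : ℕ) * m := by
    intro k
    refine path_ivt (Stp (fun X => bcol L (S X)) j) (fun X => (X j : ℕ))
      (fun X => brk L (S X)) (fun u v h => (h.1 j).2) (fun u v h => ?_) hpath _ ?_ ?_
    · have h1 := hS u v h.1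
      exact brk_eq hL0 h1.1 h1.2 (h.2.1.trans h.2.2.symm)
    · simp only [hu0]
      exact Nat.zero_le _
    · simp only [hv0]
      exact Nat.mul_le_mul_right _ (by omega)
  choose X hXb hXk using hX
  have hcl := fun k : Fin (n + 1) => clique p (X k) hm1 j k (hXk k)
  choose u v w hu hv hw huv hvw auv avw auw hcov using hcl
  obtain ⟨k, k', hkk, hφ⟩ := Fintype.exists_ne_map_eq_of_card_lt
    (fun k : Fin (n + 1) => (c (u k) (v k), c (v k) (w k), c (u k) (w k)))
    (by
      simp only [Fintype.card_prod, Fintype.card_fin]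
      have : s * (s * s) = s ^ 3 := by ring
      omega)
  simp only [Prod.mk.injEq] at hφ
  obtain ⟨c1, c2, c3⟩ := hφ
  have hne : ∀ x y : VT n, (x j : ℕ) = k → (y j : ℕ) = k' → (p x : ℤ) ≠ p y := by
    intro x y h1 h2 h3
    have h4 : x = y := hp (by exact_mod_cast h3)
    rw [h4] at h1
    exact hkk (Fin.ext (h1.symm.trans h2))
  have hclose := brk_close hL0 ((hXb k).trans (hXb k').symm)
  have hcross := cross (m := m) (B := B) (D := 2 * L) (fun i => (p (pt (X k) i) : ℤ))
    (fun i => (p (pt (X k') i) : ℤ)) (a := p (u k)) (b := p (v k)) (c := p (w k))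
    (a' := p (u k')) (b' := p (v k')) (c' := p (w k')) (by positivity) (by positivity)
    (by exact_mod_cast huv k) (by exact_mod_cast hvw k) (hB _)
    (by exact_mod_cast huv k') (by exact_mod_cast hvw k') (hB _)
    ⟨hne _ _ (hu k) (hu k'), hne _ _ (hu k) (hv k'), hne _ _ (hu k) (hw k')⟩
    ⟨hne _ _ (hv k) (hu k'), hne _ _ (hv k) (hv k'), hne _ _ (hv k) (hw k')⟩
    ⟨hne _ _ (hw k) (hu k'), hne _ _ (hw k) (hv k'), hne _ _ (hw k) (hw k')⟩
    (by linarith)
    (fun i hi => by rcases hcov k i hi with h | h | h <;> rw [h] <;> tauto)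
    (fun i hi => by rcases hcov k' i hi with h | h | h <;> rw [h] <;> tauto)
    hclose.1 hclose.2 (by rw [hmZ]; linarith)
  have fin : ∀ a b x y : VT n, (a ≠ b → (GG n).Adj a b) → (x ≠ y → (GG n).Adj x y) →
      Xg (p a) (p b) (p x) (p y) → c a b = c x y → False := by
    intro a b x y h1 h2 h3 h4
    unfold Xg at h3
    have n1 : a ≠ b := by
      rintro rfl
      omega
    have n2 : x ≠ y := by
      rintro rfl
      omega
    rcases h3 with ⟨e1, e2, e3⟩ | ⟨e1, e2, e3⟩
    · exact hcr a b x y (h1 n1) (h2 n2) (by omega) (by omega) (by omega) h4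
    · exact hcr x y a b (h2 n2) (h1 n1) (by omega) (by omega) (by omega) h4.symm
  rcases hcross with h | h | h
  · exact fin _ _ _ _ (auv k) (auv k') h c1
  · exact fin _ _ _ _ (avw k) (avw k') h c2
  · exact fin _ _ _ _ (auw k) (auw k') h c3

theorem low (s : ℕ) : ¬ Pages (GG (s ^ 3 + 1)) s :=
  low_gen _ s (by omega) (by omega)

end Pool.Agent.BT3
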